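import Pool.Agent.Y262.NU.Stm

/-!
# Project NU: eigenvalues do not decrease faster (time reversal)
-/

set_option autoImplicit false

open Set Filter Topology MeasureTheory

noncomputable section

namespace Pool.Agent.Y431.NU

open Pool.Agent.Y262.QE Pool.Agent.Y262.NU

variable {H : Type} [NormedAddCommGroup H] [InnerProductSpace ℝ H]

/-- the eigenvalues of a multiple of a form -/
theorem Ev_smul (hFmE : StFmE) (hMon : Pool.Agent.Y262.QE.StMon) {a b : H →L[ℝ] H →L[ℝ] ℝ}
    (h : Fm a b) {c : ℝ} (hc : 0 < c) (j : ℕ) :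
    Fm a (c • b) ∧ Ev a (c • b) j = c⁻¹ * Ev a b j := by
  have h1 : Fm a (c • b) := by
    refine hFmE H a b (c • b) h c c hc (fun u v => ?_) (fun v => ?_) (fun v => ?_)
    · show c * b u v = c * b v u
      rw [h.sb]
    · show c * b v v ≤ c * b v v
      exact le_rfl
    · show c * b v v ≤ c * b v v
      exact le_rfl
  refine ⟨h1, ?_⟩
  have h2 := (hMon H a b (c • b) h h1 c⁻¹ (inv_pos.2 hc) (fun v => by
    show b v v ≤ c⁻¹ * (c * b v v)
    rw [inv_mul_cancel_left₀ hc.ne']) j).2
  have h3 := (hMon H a (c • b) b h1 h c hc (fun v => by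
    show c * b v v ≤ c * b v v
    exact le_rfl) j).2
  refine le_antisymm h2 ?_
  rw [inv_mul_le_iff₀ hc]
  exact h3

/-- the family with reversed time -/
theorem fly_rev (hFmE : StFmE) (hMon : Pool.Agent.Y262.QE.StMon) {a : H →L[ℝ] H →L[ℝ] ℝ}
    {b k : ℝ → H →L[ℝ] H →L[ℝ] ℝ} {K : ℝ} (hF : Fly a b k K) (s : ℝ) :
    Fly a (fun r => Real.exp (K * r) • b (s - r))
      (fun r => Real.exp (K * r) • (K • b (s - r) - k (s - r))) K := by
  have e0 : ∀ r : ℝ, 0 < Real.exp (K * r) := fun r => Real.exp_pos _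
  refine ⟨fun r => (Ev_smul hFmE hMon (hF.fm (s - r)) (e0 r) 0).1, ?_, ?_, ?_, ?_, ?_⟩
  · intro r u v
    show Real.exp (K * r) * (K * b (s - r) u v - k (s - r) u v) =
      Real.exp (K * r) * (K * b (s - r) v u - k (s - r) v u)
    rw [(hF.fm (s - r)).sb, hF.sk]
  · intro r v
    show 0 ≤ Real.exp (K * r) * (K * b (s - r) v v - k (s - r) v v) ∧
      Real.exp (K * r) * (K * b (s - r) v v - k (s - r) v v) ≤
        K * (Real.exp (K * r) * b (s - r) v v)
    obtain ⟨h1, h2⟩ := hF.kb (s - r) v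
    constructor
    · exact mul_nonneg (e0 r).le (by linarith)
    · have := mul_nonneg (e0 r).le h1
      nlinarith
  · intro r δ v hδ
    show Real.exp (K * r) * b (s - r) v v +
      δ * (Real.exp (K * r) * (K * b (s - r) v v - k (s - r) v v)) ≤
        Real.exp (K * (r + δ)) * b (s - (r + δ)) v v
    have h1 := hF.dn (s - (r + δ)) δ v hδ
    have h2 : s - (r + δ) + δ = s - r := by ring
    rw [h2] at h1
    have h3 := mul_le_mul_of_nonneg_left h1 (e0 r).le
    have h4 : Real.exp (K * (r + δ)) = Real.exp (K * r) * Real.exp (K * δ) := by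
      rw [← Real.exp_add]; ring_nf
    rw [h4]
    linarith
  · intro r δ v hδ
    show Real.exp (K * (r + δ)) * b (s - (r + δ)) v v ≤
      Real.exp (K * δ) * (Real.exp (K * r) * b (s - r) v v)
    have h1 := hF.up (s - (r + δ)) δ v hδ
    have h2 : s - (r + δ) + δ = s - r := by ring
    rw [h2] at h1
    have h5 := mul_nonneg hδ (hF.kb (s - (r + δ)) v).1
    have h4 : Real.exp (K * (r + δ)) = Real.exp (K * r) * Real.exp (K * δ) := by
      rw [← Real.exp_add]; ring_nf
    have h3 : b (s - (r + δ)) v v ≤ b (s - r) v v := by linarith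
    have h6 := mul_le_mul_of_nonneg_left h3 (e0 (r + δ)).le
    rw [h4] at h6 ⊢
    linarith
  · intro r δ v hδ
    show Real.exp (K * (r + δ)) * b (s - (r + δ)) v v +
      δ * (K * (Real.exp (K * (r + δ)) * b (s - (r + δ)) v v) -
        Real.exp (K * (r + δ)) * (K * b (s - (r + δ)) v v - k (s - (r + δ)) v v)) ≤
      Real.exp (K * δ) * (Real.exp (K * r) * b (s - r) v v)
    have h1 := hF.up (s - (r + δ)) δ v hδ
    have h2 : s - (r + δ) + δ = s - r := by ring
    rw [h2] at h1
    have h6 := mul_le_mul_of_nonneg_left h1 (e0 (r + δ)).le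
    have h4 : Real.exp (K * (r + δ)) = Real.exp (K * r) * Real.exp (K * δ) := by
      rw [← Real.exp_add]; ring_nf
    rw [h4] at h6 ⊢
    linarith

theorem var2 (hFmE : StFmE) (hMon : Pool.Agent.Y262.QE.StMon) (hVar1 : StVar1) : StVar2 := by
  intro H _ _ _ a b k K hF α β m j hαβ hmK hm
  have e0 : ∀ r : ℝ, 0 < Real.exp (K * r) := fun r => Real.exp_pos _
  have hR := fly_rev hFmE hMon hF (α + β)
  have hE : ∀ r : ℝ, Ev a (Real.exp (K * r) • b (α + β - r)) j =
      (Real.exp (K * r))⁻¹ * Ev a (b (α + β - r)) j :=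
    fun r => (Ev_smul hFmE hMon (hF.fm (α + β - r)) (e0 r) j).2
  have h1 := hVar1 H a _ _ K hR α β (K - m) j hαβ (by linarith) (by
    intro r hr v hv
    have ht : α + β - r ∈ Ioo α β := ⟨by linarith [hr.2], by linarith [hr.1]⟩
    have h2 := hm (α + β - r) ht v (fun w => by
      have h3 := hv w
      have h4 : a v w = Ev a (Real.exp (K * r) • b (α + β - r)) j *
        (Real.exp (K * r) * b (α + β - r) v w) := h3
      rw [h4, hE r]
      field_simp [(e0 r).ne'])
    show (K - m) * (Real.exp (K * r) * b (α + β - r) v v) ≤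
      Real.exp (K * r) * (K * b (α + β - r) v v - k (α + β - r) v v)
    have h5 := mul_le_mul_of_nonneg_left h2 (e0 r).le
    linarith)
  have h2 : Ev a (Real.exp (K * β) • b (α + β - β)) j ≤ Real.exp (-((K - m) * (β - α))) *
    Ev a (Real.exp (K * α) • b (α + β - α)) j := h1
  rw [hE, hE, add_sub_cancel_right, add_sub_cancel_left, ← Real.exp_neg, ← Real.exp_neg] at h2
  have h3 := mul_le_mul_of_nonneg_left h2 (e0 β).le
  rw [← mul_assoc, ← mul_assoc, ← mul_assoc, ← Real.exp_add, ← Real.exp_add, ← Real.exp_add] at h3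
  have h4 : K * β + -(K * β) = 0 := by ring
  have h5 : K * β + -((K - m) * (β - α)) + -(K * α) = m * (β - α) := by ring
  rw [h4, h5, Real.exp_zero, one_mul] at h3
  exact h3

end Pool.Agent.Y431.NU
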